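import Mathlib
import Pool.Agent.H83.Hru

set_option autoImplicit false

namespace Pool.Agent.Results.MP_c0ccbe_al.SteinerBlocks

open Pool.Agent.H83.Hru Finset
open scoped Pointwise

/-- the points of a finite set of naturals, seen in the two-sorted universe -/
def up (s : Finset ℕ) : Finset U := s.image fun n => (n, true)

theorem mem_up {s : Finset ℕ} {n : ℕ} : (n, true) ∈ up s ↔ n ∈ s := by simp [up]

theorem not_mem_up {s : Finset ℕ} {n : ℕ} : (n, false) ∉ up s := by simp [up]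

theorem card_up (s : Finset ℕ) : (up s).card = s.card :=
  card_image_of_injective _ fun _ _ h => (Prod.mk.inj h).1

theorem filter_up (s : Finset ℕ) : (up s).filter (·.2 = true) = up s :=
  filter_true_of_mem fun x hx => by
    obtain ⟨k, -, rfl⟩ := mem_image.1 hx
    rfl

/-- permutations of the points induced by sort-preserving automorphisms -/
def grp (Rel : Set (Finset U)) : Subgroup (Equiv.Perm ℕ) where
  carrier := {π | ∃ σ, SP σ ∧ (∀ r, r ∈ Rel ↔ m σ r ∈ Rel) ∧ ∀ n, σ (n, true) = (π n, true)}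
  one_mem' := ⟨1, fun _ => rfl, fun r => by
    rw [show m 1 r = r from Finset.map_refl], fun _ => rfl⟩
  mul_mem' := by
    rintro π π' ⟨σ, h1, h2, h3⟩ ⟨σ', k1, k2, k3⟩
    refine ⟨σ * σ', fun u => (h1 _).trans (k1 u), fun r => ?_, fun n => by simp [h3, k3]⟩
    rw [k2, h2, show m σ (m σ' r) = m (σ * σ') r from Finset.map_map _ _ _]
  inv_mem' := by
    rintro π ⟨σ, h1, h2, h3⟩
    refine ⟨σ.symm, h1.symm, fun r => by rw [h2 (m σ.symm r), m_m_symm], fun n => ?_⟩
    rw [Equiv.symm_apply_eq, h3]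
    simp

theorem result : ∃ (G : Subgroup (Equiv.Perm ℕ)) (S : Set (Set.powersetCard ℕ 3)),
    MulAction.IsMultiplyPretransitive G ℕ 4 ∧
    ¬ MulAction.IsPreprimitive G (Set.powersetCard ℕ 3) ∧
    S.Nontrivial ∧ S ≠ Set.univ ∧ (∀ g : G, g • S = S ∨ Disjoint (g • S) S) ∧
    (¬ ∀ x : ℕ, ∃! s : Set.powersetCard ℕ 3, s ∈ S ∧ x ∈ (s : Finset ℕ)) ∧
    ∀ x y : ℕ, x ≠ y → ∃! s : Set.powersetCard ℕ 3,
      s ∈ S ∧ x ∈ (s : Finset ℕ) ∧ y ∈ (s : Finset ℕ) := by
  obtain ⟨Rel, hsh, huq, htot, htr⟩ := exists_generic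
  let T : ℕ → Set (Set.powersetCard ℕ 3) := fun c => {s | insert (c, false) (up s) ∈ Rel}
  have hdis : ∀ c c' s, s ∈ T c → s ∈ T c' → c = c' := fun c c' s h h' => by
    have := huq _ h _ h' (up s) (by rw [card_up]; exact s.2) (subset_insert _ _) (subset_insert _ _)
    have h1 : (c, false) ∈ insert (c', false) (up s) := this ▸ mem_insert_self _ _
    exact (Prod.mk.inj ((mem_insert.1 h1).resolve_right not_mem_up)).1
  have hst : ∀ c x y, x ≠ y → ∃! s : Set.powersetCard ℕ 3,
      s ∈ T c ∧ x ∈ (s : Finset ℕ) ∧ y ∈ (s : Finset ℕ) := fun c x y hxy => by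
    have c3 : (insert (c, false) (up {x, y})).card = 3 := by
      rw [card_insert_of_notMem not_mem_up, card_up, card_pair hxy]
    obtain ⟨r, hr, hsub⟩ := htot _ c3 (by
      rw [filter_insert, if_neg (by simp), filter_up, card_up, card_pair hxy])
    have h1 : up ((r.filter (·.2 = true)).image Prod.fst) = r.filter (·.2 = true) := by
      rw [up, image_image]
      refine (image_congr fun u hu => ?_).trans image_id
      exact Prod.ext rfl (mem_filter.1 hu).2.symm
    have h2 : insert (c, false) (r.filter (·.2 = true)) = r := eq_of_subset_of_card_le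
      (insert_subset (hsub (mem_insert_self _ _)) (filter_subset _ _))
      (by rw [card_insert_of_notMem (by simp), (hsh r hr).1, (hsh r hr).2])
    refine ⟨⟨(r.filter (·.2 = true)).image Prod.fst, by
      change Finset.card _ = 3
      rw [← card_up, h1, (hsh r hr).2]⟩, ⟨?_, ?_, ?_⟩, fun s hs => ?_⟩
    · change insert (c, false) (up _) ∈ Rel
      rw [h1, h2]; exact hr
    · exact mem_image.2 ⟨(x, true), mem_filter.2 ⟨hsub (by simp [up]), rfl⟩, rfl⟩
    · exact mem_image.2 ⟨(y, true), mem_filter.2 ⟨hsub (by simp [up]), rfl⟩, rfl⟩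
    · have h3 := huq _ hs.1 r hr _ c3 (insert_subset_insert _ (image_subset_image
        (insert_subset hs.2.1 (singleton_subset_iff.2 hs.2.2)))) hsub
      refine Subtype.ext ?_
      ext n
      rw [← mem_up (s := image _ _), h1, ← h3]
      simp [mem_up]
  have hact : ∀ (g : grp Rel) c, ∃ c', g • T c = T c' := by
    intro g c
    obtain ⟨σ, h1, h2, h3⟩ := g.2
    refine ⟨(σ (c, false)).1, ?_⟩
    ext s
    obtain ⟨s, rfl⟩ := MulAction.surjective g s
    rw [Set.smul_mem_smul_set_iff]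
    change _ ∈ Rel ↔ _ ∈ Rel
    rw [h2, m_insert]
    have e1 : σ (c, false) = ((σ (c, false)).1, false) := Prod.ext rfl (h1 _)
    have e2 : m σ (up s) = up ((g • s : Set.powersetCard ℕ 3) : Finset ℕ) := by
      change _ = up (g • (s : Finset ℕ))
      rw [m, map_eq_image, up, up, image_image, smul_finset_def, image_image]
      exact image_congr fun n _ => h3 n
    rw [e2, ← e1]
  have hblk : ∀ g : grp Rel, g • T 0 = T 0 ∨ Disjoint (g • T 0) (T 0) := fun g => by
    obtain ⟨c, hc⟩ := hact g 0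
    rw [hc]
    by_cases h : c = 0
    · exact Or.inl (by rw [h])
    · exact Or.inr (Set.disjoint_left.2 fun s h1 h2 => h (hdis _ _ s h1 h2))
  have two : ∃ s ∈ T 0, ∃ s' ∈ T 0, s ≠ s' ∧ 0 ∈ (s : Finset ℕ) ∧ 0 ∈ (s' : Finset ℕ) := by
    obtain ⟨s, ⟨h1, h2, -⟩, -⟩ := hst 0 0 1 (by norm_num)
    obtain ⟨y, hy⟩ := Infinite.exists_notMem_finset (s : Finset ℕ)
    obtain ⟨s', ⟨k1, k2, k3⟩, -⟩ := hst 0 0 y fun h => hy (h ▸ h2)
    exact ⟨s, h1, s', k1, fun h => hy (h ▸ k3), h2, k2⟩
  obtain ⟨s, h1, s', h2, h3, h4, h5⟩ := two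
  have hnt : (T 0).Nontrivial := ⟨s, h1, s', h2, h3⟩
  have hnu : T 0 ≠ Set.univ := fun h => by
    obtain ⟨t, ⟨k1, -⟩, -⟩ := hst 1 0 1 (by norm_num)
    exact absurd (hdis 1 0 t k1 (h ▸ Set.mem_univ t)) (by norm_num)
  refine ⟨grp Rel, T 0, MulAction.isMultiplyPretransitive_iff.2 fun a b => ?_, fun h => ?_, hnt,
    hnu, hblk, fun h => h3 ((h 0).unique ⟨h1, h4⟩ ⟨h2, h5⟩), hst 0⟩
  · obtain ⟨σ, k1, k2, k3⟩ := htr a b a.injective b.injective
    let π : Equiv.Perm ℕ := ⟨fun n => (σ (n, true)).1, fun n => (σ.symm (n, true)).1,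
      fun n => by
        have : ((σ (n, true)).1, true) = σ (n, true) := Prod.ext rfl (k1 (n, true)).symm
        simp only [this, Equiv.symm_apply_apply],
      fun n => by
        have : ((σ.symm (n, true)).1, true) = σ.symm (n, true) := Prod.ext rfl (k1.symm (n, true)).symm
        simp only [this, Equiv.apply_symm_apply]⟩
    refine ⟨⟨π, σ, k1, k2, fun n => Prod.ext rfl (k1 _)⟩, ?_⟩
    ext k
    exact congrArg Prod.fst (k3 k)
  · rcases h.isTrivialBlock_of_isBlock (MulAction.isBlock_iff_smul_eq_or_disjoint.2 hblk) with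
      h | h
    · exact hnt.not_subsingleton h
    · exact hnu h

end Pool.Agent.Results.MP_c0ccbe_al.SteinerBlocks
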